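import Pool.Agent.V7H6.PZ.Led
import Pool.Agent.N879.PZ.M4l
import Pool.Agent.N879.PZ.Tw
import Pool.Agent.N879.PZ.Afx
import Pool.Agent.N879.PZ.Crd
import Pool.Agent.N879.PZ.Lt

set_option autoImplicit false

/-! Project GP of the starting library: the missing piece SM (second moment of zeta). -/

namespace Pool.Agent.V7H6.GP

open Complex Filter Topology MeasureTheory Set
open Pool.Agent.N879.PZ
open Pool.Agent.N879.PZ.Smlaux
open Pool.Agent.V7H6.PZ
open Pool.Agent.Y969.GP (ff)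
open Pool.Agent.Y969.SM (ff_cont)

noncomputable section

lemma logpow (A : ℕ) : ∃ K : ℝ, 0 < K ∧ ∀ X : ℝ, 1 ≤ X → Real.log X ^ A ≤ K * X ^ (1 / 8 : ℝ) := by
  obtain ⟨η, hη⟩ : ∃ η : ℝ, η = 1 / (8 * ((A : ℝ) + 1)) := ⟨_, rfl⟩
  have hA : (0 : ℝ) ≤ A := Nat.cast_nonneg A
  have hη0 : 0 < η := by rw [hη]; positivity
  refine ⟨(1 / η) ^ A, by positivity, fun X hX => ?_⟩
  have hX0 : 0 < X := by linarith
  have h1 := Real.log_le_rpow_div hX0.le hη0
  have h2 : 0 ≤ Real.log X := Real.log_nonneg hX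
  calc Real.log X ^ A ≤ (X ^ η / η) ^ A := pow_le_pow_left₀ h2 h1 A
    _ = (1 / η) ^ A * X ^ (η * A) := by
        rw [div_eq_mul_one_div, mul_pow, ← Real.rpow_natCast (X ^ η) A, ← Real.rpow_mul hX0.le]
        ring
    _ ≤ (1 / η) ^ A * X ^ (1 / 8 : ℝ) := by
        gcongr
        rw [hη, div_mul_eq_mul_div, one_mul, div_le_div_iff₀ (by positivity) (by norm_num)]
        nlinarith

/-- SM: second moment of zeta -/
theorem t_SM : Pool.Agent.Y969.GP.S_SM := by
  have hTW := t_TW t_AFX t_CRD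
  obtain ⟨C1, hC1, h1⟩ := ff_int hTW
  obtain ⟨C2, A, hC2, h2⟩ := t_M4L t_AFX t_CRD t_LT
  obtain ⟨K, hK, hlog⟩ := logpow A
  refine ⟨4 * C1 + 8 * (√(3 * C2) * K), by positivity, fun T hT => ?_⟩
  obtain ⟨X, hX⟩ : ∃ X, X = 2 * T := ⟨_, rfl⟩
  rw [← hX]
  have hX4 : 4 ≤ X := by linarith
  have hX0 : 0 < X := by linarith
  have hX1 : 1 ≤ X := by linarith
  obtain ⟨a, ha⟩ : ∃ a, a = X ^ (7 / 8 : ℝ) := ⟨_, rfl⟩
  have ha1 : 1 ≤ a := by rw [ha]; exact Real.one_le_rpow hX1 (by norm_num)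
  have haX : a ≤ X := by
    rw [ha]
    calc X ^ (7 / 8 : ℝ) ≤ X ^ (1 : ℝ) := Real.rpow_le_rpow_of_exponent_le hX1 (by norm_num)
      _ = X := Real.rpow_one X
  have b1 := h1 X a (by linarith) ha.ge haX
  have e1 : ∫ t in Icc a X, ff t = ∫ t in a..X, ff t := by
    rw [intervalIntegral.integral_of_le haX, integral_Icc_eq_integral_Ioc]
  rw [e1] at b1
  have hL := log_one (by linarith : (3:ℝ) ≤ X)
  -- the small points
  have b2 : ∫ t in (0:ℝ)..a, ff t ^ 2 ≤ a * (√(3 * C2) * √(Real.log X ^ A)) ^ 2 := by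
    have h7 : ∫ t in (0:ℝ)..a, ff t ^ 2 ≤ ∫ t in (0:ℝ)..(max a 3), ff t ^ 2 := by
      refine intervalIntegral.integral_mono_interval le_rfl (by linarith) (le_max_left _ _) ?_ ?_
      · exact Eventually.of_forall fun t => sq_nonneg _
      · exact (ff_cont.pow 2).intervalIntegrable _ _
    refine h7.trans ((h2 (max a 3) (le_max_right _ _)).trans ?_)
    rw [mul_pow, Real.sq_sqrt (by positivity), Real.sq_sqrt (by positivity)]
    have h8 : max a 3 ≤ 3 * a := max_le (by linarith) (by linarith)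
    have h9 : max a 3 ≤ X := max_le haX (by linarith)
    have h10 : Real.log (max a 3) ^ A ≤ Real.log X ^ A := by
      refine pow_le_pow_left₀ ?_ ?_ A
      · exact Real.log_nonneg (le_max_of_le_right (by norm_num))
      · exact Real.log_le_log (lt_max_of_lt_right (by norm_num)) h9
    have h11 : 0 ≤ Real.log (max a 3) ^ A :=
      pow_nonneg (Real.log_nonneg (le_max_of_le_right (by norm_num))) A
    calc C2 * max a 3 * Real.log (max a 3) ^ A ≤ C2 * (3 * a) * Real.log X ^ A := by gcongr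
      _ = a * (3 * C2 * Real.log X ^ A) := by ring
  have b3 := cs_int (by linarith) ff_cont (by positivity) b2
  have b4 : a * (√(3 * C2) * √(Real.log X ^ A)) ≤ √(3 * C2) * K * X := by
    have c1 := sqrt_pow_le hL A
    have c2 := hlog X hX1
    have c3 : a * X ^ (1 / 8 : ℝ) = X := by
      rw [ha, ← Real.rpow_add hX0]
      norm_num
    calc a * (√(3 * C2) * √(Real.log X ^ A)) ≤ a * (√(3 * C2) * (K * X ^ (1 / 8 : ℝ))) := by
          gcongr
          exact c1.trans c2
      _ = √(3 * C2) * K * (a * X ^ (1 / 8 : ℝ)) := by ring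
      _ = _ := by rw [c3]
  have e2 : ∫ u in (0:ℝ)..X, ff u = (∫ u in (0:ℝ)..a, ff u) + ∫ u in a..X, ff u :=
    (intervalIntegral.integral_add_adjacent_intervals (ff_cont.intervalIntegrable _ _)
      (ff_cont.intervalIntegrable _ _)).symm
  have c4 : Real.log X ≤ 2 * Real.log T := by
    rw [hX, Real.log_mul (by norm_num) (by linarith)]
    have := Real.log_le_log (by norm_num : (0:ℝ) < 2) hT
    linarith
  have c5 : 1 ≤ 2 * Real.log T := hL.trans c4
  have hD : 0 ≤ √(3 * C2) * K := by positivity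
  rw [e2]
  calc (∫ u in (0:ℝ)..a, ff u) + ∫ u in a..X, ff u ≤ √(3 * C2) * K * X + C1 * X * Real.log X :=
        add_le_add (b3.trans b4) b1
    _ ≤ √(3 * C2) * K * X * (2 * Real.log T) + C1 * X * (2 * Real.log T) := by
        refine add_le_add ?_ ?_
        · exact le_mul_of_one_le_right (by positivity) c5
        · gcongr
    _ = (4 * C1 + 4 * (√(3 * C2) * K)) * T * Real.log T := by rw [hX]; ring
    _ ≤ _ := by
        have : 0 ≤ Real.log T := by linarith
        gcongr
        norm_num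

end

end Pool.Agent.V7H6.GP
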