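import Pool.Agent.V7H6.GP.Sm
import Pool.Agent.Y24.D1
import Pool.Agent.H448R2.GC.X2

set_option autoImplicit false

/-! Project GP of the starting library: the missing piece ZL (mean square of zeta on vertical lines). -/

namespace Pool.Agent.V7H6.GP

open Complex Filter Topology MeasureTheory Set
open Pool.Agent.Y969.GP (ff)
open Pool.Agent.Y969.SM (ff_cont)
open Pool.Agent.N879.PZ.Smlaux (ff_nonneg)

noncomputable section

/-- the entire function `(w-1) ζ(w)` -/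
def Z1 : ℂ → ℂ := Function.update (fun w : ℂ => (w - 1) * riemannZeta w) 1 1

lemma Z1_ne {w : ℂ} (hw : w ≠ 1) : Z1 w = (w - 1) * riemannZeta w := by
  unfold Z1
  rw [Function.update_of_ne hw]

lemma Z1_diff : Differentiable ℂ Z1 := Pool.Agent.H448R2.GC.zeta_one_entire

/-- the function to be estimated -/
def gT (T : ℝ) (z : ℂ) : ℂ := Z1 z / (z + 1) * cexp ((z / T) ^ 2)

lemma norm_gauss (T : ℝ) (z : ℂ) :
    ‖cexp ((z / T) ^ 2)‖ = Real.exp ((z.re / T) ^ 2) * Real.exp (-(z.im / T) ^ 2) := by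
  rw [Complex.norm_exp, ← Real.exp_add]
  congr 1
  have : (z / T) = (((z.re / T : ℝ) : ℂ) + (z.im / T : ℝ) * I) := by
    apply Complex.ext
    · simp
    · simp
  rw [this, sq, Complex.mul_re]
  simp
  ring

lemma add_ne {z : ℂ} (hz : 0 < z.re) : z + 1 ≠ 0 := by
  intro h
  have := congrArg Complex.re h
  simp at this
  linarith

lemma gT_diff {T : ℝ} {z : ℂ} (hz : 0 < z.re) : DifferentiableAt ℂ (gT T) z := by
  unfold gT
  refine ((Z1_diff z).div (by fun_prop) (add_ne hz)).mul ?_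
  fun_prop

/-- polynomials against Gaussians -/
lemma kern0 (B : ℕ) : ∃ K : ℝ, 0 < K ∧ ∀ y : ℝ,
    (1 + |y|) ^ B * Real.exp (-y ^ 2) ≤ K * (1 / (1 + y ^ 2)) := by
  refine ⟨Real.exp (((B + 2 : ℕ) : ℝ) ^ 2), Real.exp_pos _, fun y => ?_⟩
  have hv : (1 + |y|) ^ (B + 2) ≤ Real.exp (((B + 2 : ℕ) : ℝ) ^ 2) * Real.exp (y ^ 2) := by
    have h1 : 1 + |y| ≤ Real.exp |y| := by
      have := Real.add_one_le_exp |y|
      linarith
    calc (1 + |y|) ^ (B + 2) ≤ Real.exp |y| ^ (B + 2) := pow_le_pow_left₀ (by positivity) h1 _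
      _ = Real.exp (((B + 2 : ℕ) : ℝ) * |y|) := by rw [← Real.exp_nat_mul]
      _ ≤ Real.exp (((B + 2 : ℕ) : ℝ) ^ 2 + y ^ 2) := by
          apply Real.exp_le_exp.mpr
          have h2 : |y| ^ 2 = y ^ 2 := sq_abs y
          nlinarith [sq_nonneg (((B + 2 : ℕ) : ℝ) - |y|), sq_nonneg (((B + 2 : ℕ) : ℝ)), sq_nonneg |y|]
      _ = _ := Real.exp_add _ _
  have h6 : 1 + y ^ 2 ≤ (1 + |y|) ^ 2 := by
    rw [← sq_abs]; nlinarith [abs_nonneg y]
  rw [mul_one_div, le_div_iff₀ (by positivity)]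
  calc (1 + |y|) ^ B * Real.exp (-y ^ 2) * (1 + y ^ 2)
      ≤ (1 + |y|) ^ B * Real.exp (-y ^ 2) * (1 + |y|) ^ 2 := by gcongr
    _ = (1 + |y|) ^ (B + 2) * Real.exp (-y ^ 2) := by ring
    _ ≤ (Real.exp (((B + 2 : ℕ) : ℝ) ^ 2) * Real.exp (y ^ 2)) * Real.exp (-y ^ 2) := by gcongr
    _ = Real.exp (((B + 2 : ℕ) : ℝ) ^ 2) * (Real.exp (y ^ 2) * Real.exp (-y ^ 2)) := by ring
    _ = _ := by
        rw [← Real.exp_add]
        simp

/-- the strip data -/
lemma gT_SD {T : ℝ} (hT : 1 ≤ T) : ∃ C : ℝ, Pool.Agent.Y24.SD (gT T) (1 / 2) 2 (1 / 8) C := by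
  obtain ⟨C, B, hC, h⟩ := Pool.Agent.H448R2.GC.zeta_one_growth 0
  obtain ⟨K, hK, hk⟩ := kern0 B
  have hT0 : 0 < T := by linarith
  refine ⟨C * T ^ B * Real.exp 9 * K * T ^ 2, by norm_num, by norm_num, by positivity, fun z h1 _ => ?_, fun z h1 h2 => ?_⟩
  · exact gT_diff (by norm_num at h1; linarith)
  · have hz0 : 0 < z.re := by norm_num at h1; linarith
    have hz3 : z.re ≤ 3 := by norm_num at h2; linarith
    have b1 : ‖Z1 z‖ ≤ C * (1 + |z.im|) ^ B := h z (by linarith) hz3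
    have b2 : 1 ≤ ‖z + 1‖ := by
      have := Complex.abs_re_le_norm (z + 1)
      have h3 : (1:ℝ) ≤ |(z + 1).re| := by
        rw [Complex.add_re, Complex.one_re, abs_of_pos (by linarith)]
        linarith
      linarith
    have b3 : ‖Z1 z / (z + 1)‖ ≤ C * (1 + |z.im|) ^ B := by
      rw [norm_div]
      exact (div_le_self (norm_nonneg _) b2).trans b1
    obtain ⟨w, hw⟩ : ∃ w, w = z.im / T := ⟨_, rfl⟩
    have hyw : z.im = T * w := by rw [hw]; field_simp
    have b4 : 1 + |z.im| ≤ T * (1 + |w|) := by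
      rw [hyw, abs_mul, abs_of_pos hT0]
      nlinarith [abs_nonneg w]
    have b5 : Real.exp ((z.re / T) ^ 2) ≤ Real.exp 9 := by
      apply Real.exp_le_exp.mpr
      have h4 : z.re / T ≤ 3 := by rw [div_le_iff₀ hT0]; nlinarith
      have h5 : 0 ≤ z.re / T := by positivity
      nlinarith
    have b6 : 1 / (1 + w ^ 2) ≤ T ^ 2 * (1 / (1 + z.im ^ 2)) := by
      rw [hyw, mul_one_div, div_le_div_iff₀ (by positivity) (by positivity)]
      nlinarith [sq_nonneg w, sq_nonneg (T * w)]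
    unfold gT
    rw [norm_mul, norm_gauss, ← hw]
    calc ‖Z1 z / (z + 1)‖ * (Real.exp ((z.re / T) ^ 2) * Real.exp (-w ^ 2))
        ≤ (C * (T * (1 + |w|)) ^ B) * (Real.exp 9 * Real.exp (-w ^ 2)) := by
          refine mul_le_mul (b3.trans ?_) ?_ (by positivity) (by positivity)
          · gcongr
          · gcongr
      _ = C * T ^ B * Real.exp 9 * ((1 + |w|) ^ B * Real.exp (-w ^ 2)) := by rw [mul_pow]; ring
      _ ≤ C * T ^ B * Real.exp 9 * (K * (1 / (1 + w ^ 2))) :=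
          mul_le_mul_of_nonneg_left (hk w) (by positivity)
      _ ≤ C * T ^ B * Real.exp 9 * (K * (T ^ 2 * (1 / (1 + z.im ^ 2)))) := by gcongr
      _ = _ := by ring

lemma norm_ratio {z : ℂ} (hz : 0 < z.re) : ‖(z - 1) / (z + 1)‖ ≤ 1 := by
  rw [norm_div, div_le_one (norm_pos_iff.mpr (add_ne hz))]
  apply le_of_sq_le_sq _ (norm_nonneg _) |>.trans le_rfl
  rw [← Complex.normSq_eq_norm_sq, ← Complex.normSq_eq_norm_sq, Complex.normSq_apply, Complex.normSq_apply]
  simp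
  nlinarith

/-- upper bound away from the pole -/
lemma gT_le {T : ℝ} (hT : 2 ≤ T) {z : ℂ} (hz : 0 < z.re) (hz2 : z.re ≤ 2) (h1 : z ≠ 1) :
    ‖gT T z‖ ≤ Real.exp 1 * (‖riemannZeta z‖ * Real.exp (-(z.im / T) ^ 2)) := by
  unfold gT
  have e : Z1 z / (z + 1) = (z - 1) / (z + 1) * riemannZeta z := by
    rw [Z1_ne h1]
    ring
  have hT0 : 0 < T := by linarith
  have b5 : Real.exp ((z.re / T) ^ 2) ≤ Real.exp 1 := by
    apply Real.exp_le_exp.mpr
    have h4 : z.re / T ≤ 1 := by rw [div_le_iff₀ hT0]; linarith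
    have h5 : 0 ≤ z.re / T := by positivity
    nlinarith
  rw [norm_mul, norm_gauss, e, norm_mul]
  have b1 := norm_ratio hz
  calc ‖(z - 1) / (z + 1)‖ * ‖riemannZeta z‖ * (Real.exp ((z.re / T) ^ 2) * Real.exp (-(z.im / T) ^ 2))
      ≤ 1 * ‖riemannZeta z‖ * (Real.exp 1 * Real.exp (-(z.im / T) ^ 2)) := by gcongr
    _ = _ := by ring

/-- lower bound -/
lemma gT_ge {T x v : ℝ} (hT : 1 ≤ T) (hx : 1 / 2 ≤ x) (hx2 : x ≤ 2) (hv : 1 ≤ v) (hvT : v ≤ T) :
    ‖riemannZeta (x + I * v)‖ ^ 2 ≤ 16 * Real.exp 2 * ‖gT T ((x : ℂ) + (v : ℂ) * I)‖ ^ 2 := by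
  have hT0 : 0 < T := by linarith
  obtain ⟨z, hz⟩ : ∃ z : ℂ, z = (x : ℂ) + (v : ℂ) * I := ⟨_, rfl⟩
  have hzI : (x : ℂ) + I * v = z := by rw [hz]; ring
  rw [hzI, ← hz]
  have hre : z.re = x := by rw [hz]; simp
  have him : z.im = v := by rw [hz]; simp
  have hne : z ≠ 1 := by
    intro h
    have := congrArg Complex.im h
    rw [him] at this
    simp at this
    linarith
  have hz0 : 0 < z.re := by rw [hre]; linarith
  have e : riemannZeta z = (z + 1) / (z - 1) * (Z1 z / (z + 1)) := by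
    rw [Z1_ne hne]
    have h1 := add_ne hz0
    have h2 : z - 1 ≠ 0 := sub_ne_zero.2 hne
    field_simp
  have b1 : ‖(z + 1) / (z - 1)‖ ≤ 4 := by
    have c1 : v ≤ ‖z - 1‖ := by
      have := Complex.abs_im_le_norm (z - 1)
      have h3 : |(z - 1).im| = v := by
        rw [Complex.sub_im, him, Complex.one_im, sub_zero, abs_of_pos (by linarith)]
      linarith
    have c2 : ‖z + 1‖ ≤ 3 + v := by
      have := Complex.norm_le_abs_re_add_abs_im (z + 1)
      have h3 : |(z + 1).im| = v := by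
        rw [Complex.add_im, him, Complex.one_im, add_zero, abs_of_pos (by linarith)]
      have h4 : |(z + 1).re| ≤ 3 := by
        rw [Complex.add_re, hre, Complex.one_re, abs_of_pos (by linarith)]
        linarith
      linarith
    rw [norm_div, div_le_iff₀ (by linarith)]
    linarith
  have b2 : ‖Z1 z / (z + 1)‖ ≤ Real.exp 1 * ‖gT T z‖ := by
    unfold gT
    rw [norm_mul, norm_gauss, him]
    have c1 : 1 ≤ Real.exp 1 * (Real.exp ((z.re / T) ^ 2) * Real.exp (-(v / T) ^ 2)) := by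
      rw [← Real.exp_add, ← Real.exp_add]
      apply Real.one_le_exp
      have h4 : v / T ≤ 1 := by rw [div_le_iff₀ hT0]; linarith
      have h5 : 0 ≤ v / T := by positivity
      nlinarith [sq_nonneg (z.re / T)]
    calc ‖Z1 z / (z + 1)‖ = ‖Z1 z / (z + 1)‖ * 1 := (mul_one _).symm
      _ ≤ ‖Z1 z / (z + 1)‖ * (Real.exp 1 * (Real.exp ((z.re / T) ^ 2) * Real.exp (-(v / T) ^ 2))) := by gcongr
      _ = _ := by ring
  rw [e, norm_mul]
  have b3 : ‖(z + 1) / (z - 1)‖ * ‖Z1 z / (z + 1)‖ ≤ 4 * (Real.exp 1 * ‖gT T z‖) :=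
    mul_le_mul b1 b2 (norm_nonneg _) (by norm_num)
  calc (‖(z + 1) / (z - 1)‖ * ‖Z1 z / (z + 1)‖) ^ 2 ≤ (4 * (Real.exp 1 * ‖gT T z‖)) ^ 2 :=
        pow_le_pow_left₀ (by positivity) b3 2
    _ = 16 * Real.exp 1 ^ 2 * ‖gT T z‖ ^ 2 := by ring
    _ = _ := by rw [← Real.exp_nat_mul]; norm_num

/-! ### the critical line -/

lemma sq_pow (k : ℕ) : ((k : ℝ) + 1) ^ 2 ≤ 4 * 2 ^ k := by
  induction k with
  | zero => norm_num
  | succ k ih =>
    rcases Nat.lt_or_ge k 2 with h | h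
    · interval_cases k <;> norm_num
    · have hk : (2 : ℝ) ≤ k := by exact_mod_cast h
      have e : (2 : ℝ) ^ (k + 1) = 2 * 2 ^ k := by ring
      rw [e]
      push_cast
      nlinarith

lemma gauss_block (k : ℕ) : Real.exp (-(2 * (k : ℝ) ^ 2)) * ((k : ℝ) + 1) ^ 2 ≤ 4 * (1 / 2 : ℝ) ^ k := by
  have h1 : Real.exp (-(2 * (k : ℝ) ^ 2)) ≤ (1 / 4 : ℝ) ^ k := by
    have h2 : Real.exp (-(2 * (k : ℝ) ^ 2)) ≤ Real.exp (k * (-2)) := by
      apply Real.exp_le_exp.mpr
      rcases Nat.eq_zero_or_pos k with h | h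
      · subst h; simp
      · have hk : (1 : ℝ) ≤ k := by exact_mod_cast h
        nlinarith
    refine h2.trans ?_
    rw [Real.exp_nat_mul]
    have h3 : Real.exp (-2) ≤ 1 / 4 := by
      rw [Real.exp_neg, inv_eq_one_div, div_le_div_iff₀ (Real.exp_pos _) (by norm_num)]
      have h4 := Real.exp_one_gt_d9
      have h5 : Real.exp 2 = Real.exp 1 ^ 2 := by rw [← Real.exp_nat_mul]; norm_num
      rw [h5]
      nlinarith
    exact pow_le_pow_left₀ (Real.exp_pos _).le h3 k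
  calc Real.exp (-(2 * (k : ℝ) ^ 2)) * ((k : ℝ) + 1) ^ 2 ≤ (1 / 4 : ℝ) ^ k * (4 * 2 ^ k) :=
        mul_le_mul h1 (sq_pow k) (by positivity) (by positivity)
    _ = 4 * ((1 / 4 : ℝ) * 2) ^ k := by rw [mul_pow]; ring
    _ = _ := by norm_num

lemma half_line : ∃ C : ℝ, 0 < C ∧ ∀ T : ℝ, 4 ≤ T → ∀ n : ℕ,
    ∫ y in (0:ℝ)..(n * T), ff y * Real.exp (-(2 * (y / T) ^ 2)) ≤ C * (T * Real.log T) := by
  obtain ⟨C, hC, h⟩ := t_SM
  refine ⟨8 * C, by positivity, fun T hT n => ?_⟩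
  have hT0 : 0 < T := by linarith
  have hL : 1 ≤ Real.log T := Pool.Agent.N879.PZ.Smlaux.log_one (by linarith)
  have hcont : Continuous fun y => ff y * Real.exp (-(2 * (y / T) ^ 2)) :=
    ff_cont.mul (by fun_prop)
  have hsum : ∫ y in (0:ℝ)..(n * T), ff y * Real.exp (-(2 * (y / T) ^ 2)) =
      ∑ k ∈ Finset.range n, ∫ y in ((k : ℝ) * T)..(((k + 1 : ℕ) : ℝ) * T), ff y * Real.exp (-(2 * (y / T) ^ 2)) := by
    rw [intervalIntegral.sum_integral_adjacent_intervals (a := fun k : ℕ => (k : ℝ) * T)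
      (fun k _ => hcont.intervalIntegrable _ _)]
    simp
  rw [hsum]
  have hblk : ∀ k ∈ Finset.range n, ∫ y in ((k : ℝ) * T)..(((k + 1 : ℕ) : ℝ) * T),
      ff y * Real.exp (-(2 * (y / T) ^ 2)) ≤ C * (T * Real.log T) * 4 * (1 / 2 : ℝ) ^ k := by
    intro k _
    have hk0 : (0 : ℝ) ≤ k := Nat.cast_nonneg k
    have hkk : (k : ℝ) * T ≤ ((k + 1 : ℕ) : ℝ) * T := by push_cast; nlinarith
    have a1 : ∫ y in ((k : ℝ) * T)..(((k + 1 : ℕ) : ℝ) * T), ff y * Real.exp (-(2 * (y / T) ^ 2)) ≤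
        ∫ y in ((k : ℝ) * T)..(((k + 1 : ℕ) : ℝ) * T), ff y * Real.exp (-(2 * (k : ℝ) ^ 2)) := by
      refine intervalIntegral.integral_mono_on hkk (hcont.intervalIntegrable _ _)
        ((ff_cont.mul continuous_const).intervalIntegrable _ _) fun y hy => ?_
      refine mul_le_mul_of_nonneg_left ?_ (ff_nonneg y)
      apply Real.exp_le_exp.mpr
      have h3 : (k : ℝ) ≤ y / T := by rw [le_div_iff₀ hT0]; exact hy.1
      nlinarith
    have a2 : ∫ y in ((k : ℝ) * T)..(((k + 1 : ℕ) : ℝ) * T), ff y ≤ ∫ y in (0:ℝ)..(((k + 1 : ℕ) : ℝ) * T), ff y :=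
      intervalIntegral.integral_mono_interval (by positivity) hkk le_rfl
        (Eventually.of_forall fun y => ff_nonneg y) (ff_cont.intervalIntegrable _ _)
    have a3 := h (((k + 1 : ℕ) : ℝ) * T / 2) (by push_cast; nlinarith)
    rw [show 2 * (((k + 1 : ℕ) : ℝ) * T / 2) = ((k + 1 : ℕ) : ℝ) * T by ring] at a3
    have a4 : Real.log (((k + 1 : ℕ) : ℝ) * T / 2) ≤ ((k : ℝ) + 1) * Real.log T := by
      have b1 : Real.log (((k + 1 : ℕ) : ℝ) * T / 2) ≤ Real.log (((k + 1 : ℕ) : ℝ) * T) := by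
        refine Real.log_le_log (by positivity) ?_
        have : 0 ≤ ((k + 1 : ℕ) : ℝ) * T := by positivity
        linarith
      have b2 : Real.log (((k + 1 : ℕ) : ℝ) * T) = Real.log ((k + 1 : ℕ) : ℝ) + Real.log T :=
        Real.log_mul (by positivity) hT0.ne'
      have b3 : Real.log ((k + 1 : ℕ) : ℝ) ≤ k := by
        have := Real.log_le_sub_one_of_pos (by positivity : (0:ℝ) < ((k + 1 : ℕ) : ℝ))
        push_cast at this ⊢
        linarith
      nlinarith
    have a5 : ∫ y in (0:ℝ)..(((k + 1 : ℕ) : ℝ) * T), ff y ≤ C * (T * Real.log T) * ((k : ℝ) + 1) ^ 2 := by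
      refine a3.trans ?_
      have c1 : ((k + 1 : ℕ) : ℝ) * T / 2 ≤ ((k : ℝ) + 1) * T := by
        push_cast
        have : 0 ≤ ((k : ℝ) + 1) * T := by positivity
        linarith
      have c2 : 0 ≤ ((k : ℝ) + 1) * Real.log T := by positivity
      calc C * (((k + 1 : ℕ) : ℝ) * T / 2) * Real.log (((k + 1 : ℕ) : ℝ) * T / 2)
          ≤ C * (((k + 1 : ℕ) : ℝ) * T / 2) * (((k : ℝ) + 1) * Real.log T) := by gcongr
        _ ≤ C * (((k : ℝ) + 1) * T) * (((k : ℝ) + 1) * Real.log T) := by gcongr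
        _ = _ := by ring
    have hM : 0 ≤ C * (T * Real.log T) := by positivity
    calc ∫ y in ((k : ℝ) * T)..(((k + 1 : ℕ) : ℝ) * T), ff y * Real.exp (-(2 * (y / T) ^ 2))
        ≤ (∫ y in ((k : ℝ) * T)..(((k + 1 : ℕ) : ℝ) * T), ff y) * Real.exp (-(2 * (k : ℝ) ^ 2)) := by
          rw [← intervalIntegral.integral_mul_const]; exact a1
      _ ≤ (C * (T * Real.log T) * ((k : ℝ) + 1) ^ 2) * Real.exp (-(2 * (k : ℝ) ^ 2)) := by
          gcongr
          exact a2.trans a5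
      _ = C * (T * Real.log T) * (Real.exp (-(2 * (k : ℝ) ^ 2)) * ((k : ℝ) + 1) ^ 2) := by ring
      _ ≤ C * (T * Real.log T) * (4 * (1 / 2 : ℝ) ^ k) := mul_le_mul_of_nonneg_left (gauss_block k) hM
      _ = _ := by ring
  refine (Finset.sum_le_sum hblk).trans ?_
  rw [← Finset.mul_sum]
  have hg := sum_geometric_two_le n
  have hM : 0 ≤ C * (T * Real.log T) * 4 := by positivity
  calc C * (T * Real.log T) * 4 * ∑ i ∈ Finset.range n, (1 / 2 : ℝ) ^ i ≤ C * (T * Real.log T) * 4 * 2 :=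
        mul_le_mul_of_nonneg_left hg hM
    _ = _ := by ring

/-! ### the lines -/

/-- the square of the function on a line -/
def GG2 (T x y : ℝ) : ℝ := ‖gT T ((x : ℂ) + (y : ℂ) * I)‖ ^ 2

lemma GG2_cont {T x : ℝ} (hx : 0 < x) : Continuous (GG2 T x) := by
  unfold GG2
  refine (Continuous.norm ?_).pow 2
  refine continuous_iff_continuousAt.mpr fun y => ?_
  have hd := (gT_diff (T := T) (z := (x : ℂ) + (y : ℂ) * I) (by simpa using hx)).continuousAt
  exact ContinuousAt.comp (f := fun y : ℝ => (x : ℂ) + (y : ℂ) * I) hd (by fun_prop)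

lemma GG2_int {T x : ℝ} (hT : 1 ≤ T) (hx : 1 / 2 ≤ x) (hx2 : x ≤ 2) : Integrable (GG2 T x) := by
  obtain ⟨C, hSD⟩ := gT_SD hT
  have hC := hSD.C0
  refine (integrable_inv_one_add_sq.const_mul (C ^ 2)).mono'
    (GG2_cont (by linarith)).aestronglyMeasurable (Eventually.of_forall fun y => ?_)
  unfold GG2
  have h1 := hSD.dec ((x : ℂ) + (y : ℂ) * I) (by simp; linarith) (by simp; linarith)
  have e : ((x : ℂ) + (y : ℂ) * I).im = y := by simp
  rw [e] at h1
  have h2 : 1 / (1 + y ^ 2) ≤ 1 := by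
    rw [div_le_one (by positivity)]; nlinarith [sq_nonneg y]
  have h3 : 0 ≤ 1 / (1 + y ^ 2) := by positivity
  rw [Real.norm_of_nonneg (by positivity)]
  calc ‖gT T ((x : ℂ) + (y : ℂ) * I)‖ ^ 2 ≤ (C * (1 / (1 + y ^ 2))) ^ 2 := pow_le_pow_left₀ (norm_nonneg _) h1 2
    _ = C ^ 2 * (1 / (1 + y ^ 2)) * (1 / (1 + y ^ 2)) := by ring
    _ ≤ C ^ 2 * (1 / (1 + y ^ 2)) * 1 := by gcongr
    _ = _ := by rw [mul_one, one_div]

lemma GG2_half {T y : ℝ} (hT : 2 ≤ T) : GG2 T (1 / 2) y ≤ Real.exp 2 * (ff y * Real.exp (-(2 * (y / T) ^ 2))) := by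
  unfold GG2
  obtain ⟨z, hz⟩ : ∃ z : ℂ, z = ((1 / 2 : ℝ) : ℂ) + (y : ℂ) * I := ⟨_, rfl⟩
  rw [← hz]
  have hre : z.re = 1 / 2 := by rw [hz]; simp
  have him : z.im = y := by rw [hz]; simp
  have hne : z ≠ 1 := by
    intro h
    have := congrArg Complex.re h
    rw [hre] at this
    norm_num at this
  have h1 := gT_le hT (by rw [hre]; norm_num) (by rw [hre]; norm_num) hne
  have e2 : ff y = ‖riemannZeta z‖ ^ 2 := by
    unfold Pool.Agent.Y969.GP.ff
    rw [hz]
    congr 3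
    push_cast
    ring
  rw [e2]
  calc ‖gT T z‖ ^ 2 ≤ (Real.exp 1 * (‖riemannZeta z‖ * Real.exp (-(z.im / T) ^ 2))) ^ 2 :=
        pow_le_pow_left₀ (norm_nonneg _) h1 2
    _ = Real.exp 1 ^ 2 * (‖riemannZeta z‖ ^ 2 * Real.exp (-(z.im / T) ^ 2) ^ 2) := by ring
    _ = _ := by
        rw [← Real.exp_nat_mul, ← Real.exp_nat_mul, him]
        congr 1
        · norm_num
        · congr 2
          push_cast
          ring

lemma ff_neg (y : ℝ) : ff (-y) = ff y := by
  unfold Pool.Agent.Y969.GP.ff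
  have e : (1 / 2 : ℂ) + I * ((-y : ℝ) : ℂ) = (starRingEnd ℂ) (1 / 2 + I * y) := by
    apply Complex.ext <;> simp
  rw [e, riemannZeta_conj, RCLike.norm_conj]

/-- the critical line -/
lemma line_half : ∃ C : ℝ, 0 < C ∧ ∀ T : ℝ, 4 ≤ T → ∫ y : ℝ, GG2 T (1 / 2) y ≤ C * (T * Real.log T) := by
  obtain ⟨C, hC, h⟩ := half_line
  refine ⟨2 * (Real.exp 2 * C), by positivity, fun T hT => ?_⟩
  have hT0 : 0 < T := by linarith
  have hint := GG2_int (T := T) (x := 1 / 2) (by linarith) le_rfl (by norm_num)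
  have hcont : Continuous fun y => ff y * Real.exp (-(2 * (y / T) ^ 2)) :=
    ff_cont.mul (by fun_prop)
  have hgc := GG2_cont (T := T) (x := 1 / 2) (by norm_num)
  have htend : Tendsto (fun n : ℕ => (n : ℝ) * T) atTop atTop :=
    tendsto_natCast_atTop_atTop.atTop_mul_const hT0
  have h1 : ∫ y in Ioi (0:ℝ), GG2 T (1 / 2) y ≤ Real.exp 2 * C * (T * Real.log T) := by
    have h2 := intervalIntegral_tendsto_integral_Ioi 0 hint.integrableOn htend
    refine le_of_tendsto h2 (Eventually.of_forall fun n => ?_)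
    have h3 : ∫ y in (0:ℝ)..(n * T), GG2 T (1 / 2) y ≤
        ∫ y in (0:ℝ)..(n * T), Real.exp 2 * (ff y * Real.exp (-(2 * (y / T) ^ 2))) :=
      intervalIntegral.integral_mono_on (by positivity) (hgc.intervalIntegrable _ _)
        ((continuous_const.mul hcont).intervalIntegrable _ _) fun y _ => GG2_half (by linarith)
    refine h3.trans ?_
    rw [intervalIntegral.integral_const_mul, mul_assoc]
    exact mul_le_mul_of_nonneg_left (h T hT n) (Real.exp_pos _).le
  have h4 : ∫ y in Iic (0:ℝ), GG2 T (1 / 2) y ≤ Real.exp 2 * C * (T * Real.log T) := by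
    have e : ∫ y in Iic (0:ℝ), GG2 T (1 / 2) y = ∫ y in Ioi (0:ℝ), GG2 T (1 / 2) (-y) := by
      have := integral_comp_neg_Ioi (0:ℝ) (GG2 T (1 / 2))
      rw [neg_zero] at this
      exact this.symm
    rw [e]
    have hint2 : Integrable fun y => GG2 T (1 / 2) (-y) := hint.comp_neg
    have h2 := intervalIntegral_tendsto_integral_Ioi 0 hint2.integrableOn htend
    refine le_of_tendsto h2 (Eventually.of_forall fun n => ?_)
    have h3 : ∫ y in (0:ℝ)..(n * T), GG2 T (1 / 2) (-y) ≤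
        ∫ y in (0:ℝ)..(n * T), Real.exp 2 * (ff y * Real.exp (-(2 * (y / T) ^ 2))) :=
      intervalIntegral.integral_mono_on (by positivity) ((hgc.comp continuous_neg).intervalIntegrable _ _)
        ((continuous_const.mul hcont).intervalIntegrable _ _) fun y _ => by
          have := GG2_half (T := T) (y := -y) (by linarith)
          rw [ff_neg, neg_div, neg_sq] at this
          exact this
    refine h3.trans ?_
    rw [intervalIntegral.integral_const_mul, mul_assoc]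
    exact mul_le_mul_of_nonneg_left (h T hT n) (Real.exp_pos _).le
  have e : ∫ y : ℝ, GG2 T (1 / 2) y = (∫ y in Iic (0:ℝ), GG2 T (1 / 2) y) + ∫ y in Ioi (0:ℝ), GG2 T (1 / 2) y :=
    (intervalIntegral.integral_Iic_add_Ioi hint.integrableOn hint.integrableOn).symm
  rw [e]
  linarith

/-- the line `Re s = 2` -/
lemma line_two : ∃ C : ℝ, 0 < C ∧ ∀ T : ℝ, 4 ≤ T → ∫ y : ℝ, GG2 T 2 y ≤ C * (T * Real.log T) := by
  obtain ⟨C2, hC2, h2⟩ := Pool.Agent.H448R2.GC.X1.zeta_bdd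
  refine ⟨(Real.exp 1 * C2) ^ 2 * √Real.pi, by positivity, fun T hT => ?_⟩
  have hT0 : 0 < T := by linarith
  have hL : 1 ≤ Real.log T := Pool.Agent.N879.PZ.Smlaux.log_one (by linarith)
  have hpt : ∀ y, GG2 T 2 y ≤ (Real.exp 1 * C2) ^ 2 * Real.exp (-(1 / T ^ 2) * y ^ 2) := by
    intro y
    unfold GG2
    obtain ⟨z, hz⟩ : ∃ z : ℂ, z = ((2 : ℝ) : ℂ) + (y : ℂ) * I := ⟨_, rfl⟩
    rw [← hz]
    have hre : z.re = 2 := by rw [hz]; simp
    have him : z.im = y := by rw [hz]; simp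
    have hne : z ≠ 1 := by
      intro h
      have := congrArg Complex.re h
      rw [hre] at this
      norm_num at this
    have h1 := gT_le (by linarith : (2:ℝ) ≤ T) (by rw [hre]; norm_num) hre.le hne
    have h3 := h2 z (by rw [hre]; norm_num)
    rw [him] at h1
    have h4 : Real.exp (-(y / T) ^ 2) ≤ 1 := by
      rw [Real.exp_le_one_iff]
      nlinarith [sq_nonneg (y / T)]
    calc ‖gT T z‖ ^ 2 ≤ (Real.exp 1 * (C2 * Real.exp (-(y / T) ^ 2))) ^ 2 := by
          refine pow_le_pow_left₀ (norm_nonneg _) (h1.trans ?_) 2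
          gcongr
      _ = (Real.exp 1 * C2) ^ 2 * (Real.exp (-(y / T) ^ 2) * Real.exp (-(y / T) ^ 2)) := by ring
      _ ≤ (Real.exp 1 * C2) ^ 2 * (Real.exp (-(y / T) ^ 2) * 1) := by gcongr
      _ = _ := by
          rw [mul_one]
          congr 2
          field_simp
  have hb : 0 < 1 / T ^ 2 := by positivity
  have hi := (integrable_exp_neg_mul_sq hb).const_mul ((Real.exp 1 * C2) ^ 2)
  refine (integral_mono (GG2_int (by linarith) (by norm_num) le_rfl) hi hpt).trans ?_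
  rw [integral_const_mul, integral_gaussian]
  have e : √(Real.pi / (1 / T ^ 2)) = √Real.pi * T := by
    rw [div_div_eq_mul_div, div_one, Real.sqrt_mul Real.pi_pos.le, Real.sqrt_sq hT0.le]
  rw [e]
  have h5 : T ≤ T * Real.log T := le_mul_of_one_le_right hT0.le hL
  calc (Real.exp 1 * C2) ^ 2 * (√Real.pi * T) = (Real.exp 1 * C2) ^ 2 * √Real.pi * T := by ring
    _ ≤ _ := by gcongr

/-- ZL: mean square of zeta on the lines to the right of the critical line -/
theorem t_ZL : Pool.Agent.Y969.GP.S_ZL := by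
  obtain ⟨CA, hCA, hA⟩ := line_half
  obtain ⟨CB, hCB, hB⟩ := line_two
  intro κ hκ
  obtain ⟨M0, hM0⟩ : ∃ M0, M0 = CA + CB := ⟨_, rfl⟩
  have hM00 : 0 < M0 := by rw [hM0]; positivity
  -- the bound for `T ≥ 4`
  have main : ∀ x T : ℝ, 1 / 2 ≤ x → x ≤ 2 → 4 ≤ T →
      ∫ v in (1:ℝ)..T, ‖riemannZeta (x + I * v)‖ ^ 2 ≤ 16 * Real.exp 2 * (M0 * (T * Real.log T)) := by
    intro x T hx hx2 hT
    have hT0 : 0 < T := by linarith
    have hL : 1 ≤ Real.log T := Pool.Agent.N879.PZ.Smlaux.log_one (by linarith)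
    obtain ⟨C, hSD⟩ := gT_SD (T := T) (by linarith)
    obtain ⟨M, hM⟩ : ∃ M, M = M0 * (T * Real.log T) := ⟨_, rfl⟩
    have hM1 : 0 < M := by rw [hM]; positivity
    have hTL : 0 ≤ T * Real.log T := by positivity
    have e1 : ∀ x' : ℝ, ∫ y : ℝ, ‖gT T ((x' : ℂ) + (y : ℂ) * I)‖ ^ (2 : ℝ) = ∫ y : ℝ, GG2 T x' y := by
      intro x'
      refine integral_congr_ae (Eventually.of_forall fun y => ?_)
      simp only [GG2, Real.rpow_two]
    have a1 : ∫ y : ℝ, ‖gT T (((1 / 2 : ℝ) : ℂ) + (y : ℂ) * I)‖ ^ (2 : ℝ) ≤ M := by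
      rw [e1, hM, hM0]
      refine (hA T hT).trans ?_
      rw [add_mul]
      have : 0 ≤ CB * (T * Real.log T) := by positivity
      linarith
    have a2 : ∫ y : ℝ, ‖gT T (((2 : ℝ) : ℂ) + (y : ℂ) * I)‖ ^ (2 : ℝ) ≤ M := by
      rw [e1, hM, hM0]
      refine (hB T hT).trans ?_
      rw [add_mul]
      have : 0 ≤ CA * (T * Real.log T) := by positivity
      linarith
    have a3 := Pool.Agent.Y24.conv_lp hSD (p := 2) (by norm_num) (σ := x) (by norm_num) hx hx2 a1 a2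
    rw [e1, ← Real.rpow_add hM1] at a3
    have e2 : 1 - (x - 1 / 2) / (2 - 1 / 2) + (x - 1 / 2) / (2 - 1 / 2) = 1 := by ring
    rw [e2, Real.rpow_one] at a3
    have hint := GG2_int (T := T) (x := x) (by linarith) hx hx2
    have hgc := GG2_cont (T := T) (x := x) (by linarith)
    have a4 : ∫ v in (1:ℝ)..T, ‖riemannZeta (x + I * v)‖ ^ 2 ≤
        ∫ v in (1:ℝ)..T, 16 * Real.exp 2 * GG2 T x v := by
      by_cases hi : IntervalIntegrable (fun v : ℝ => ‖riemannZeta (x + I * v)‖ ^ 2) volume 1 T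
      · refine intervalIntegral.integral_mono_on (by linarith) hi
          ((continuous_const.mul hgc).intervalIntegrable _ _) fun v hv => ?_
        exact gT_ge (by linarith) hx hx2 hv.1 hv.2
      · rw [intervalIntegral.integral_undef hi]
        refine intervalIntegral.integral_nonneg (by linarith) fun v _ => ?_
        unfold GG2
        positivity
    refine a4.trans ?_
    rw [intervalIntegral.integral_const_mul, ← hM]
    refine mul_le_mul_of_nonneg_left ?_ (by positivity)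
    rw [intervalIntegral.integral_of_le (by linarith)]
    refine (setIntegral_le_integral hint (Eventually.of_forall fun y => ?_)).trans a3
    unfold GG2
    positivity
  -- the logarithm
  obtain ⟨D, hD⟩ : ∃ D, D = 16 * Real.exp 2 * M0 := ⟨_, rfl⟩
  have hD0 : 0 < D := by rw [hD]; positivity
  have hlog : ∀ T : ℝ, 1 ≤ T → T * Real.log T ≤ 1 / κ * T ^ (1 + κ) := by
    intro T hT
    have hT0 : 0 < T := by linarith
    have := Real.log_le_rpow_div hT0.le hκ
    rw [Real.rpow_add hT0, Real.rpow_one]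
    calc T * Real.log T ≤ T * (T ^ κ / κ) := by gcongr
      _ = _ := by ring
  refine ⟨D * (1 / κ * (4:ℝ) ^ (1 + κ)), by positivity, fun x T hx hx2 hT => ?_⟩
  have hT0 : 0 < T := by linarith
  have h41 : (1:ℝ) ≤ 4 ^ (1 + κ) := Real.one_le_rpow (by norm_num) (by linarith)
  have hT1 : (1:ℝ) ≤ T ^ (1 + κ) := Real.one_le_rpow hT (by linarith)
  rcases le_or_gt 4 T with h4 | h4
  · refine (main x T hx hx2 h4).trans ?_
    have h5 := hlog T hT
    calc 16 * Real.exp 2 * (M0 * (T * Real.log T)) = D * (T * Real.log T) := by rw [hD]; ring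
      _ ≤ D * (1 / κ * T ^ (1 + κ)) := by gcongr
      _ = D * (1 / κ * 1) * T ^ (1 + κ) := by ring
      _ ≤ _ := by gcongr
  · have h5 := hlog 4 (by norm_num)
    have h6 := main x 4 hx hx2 le_rfl
    have h7 : ∫ v in (1:ℝ)..T, ‖riemannZeta (x + I * v)‖ ^ 2 ≤ ∫ v in (1:ℝ)..4, ‖riemannZeta (x + I * v)‖ ^ 2 := by
      refine intervalIntegral.integral_mono_interval le_rfl hT h4.le
        (Eventually.of_forall fun v => sq_nonneg _) ?_
      refine ContinuousOn.intervalIntegrable ?_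
      rw [uIcc_of_le (by norm_num : (1:ℝ) ≤ 4)]
      intro v hv
      have hne : (x : ℂ) + I * (v : ℂ) ≠ 1 := by
        intro h
        have := congrArg Complex.im h
        simp at this
        linarith [hv.1]
      have hd := (differentiableAt_riemannZeta hne).continuousAt
      have hc : ContinuousAt (fun v : ℝ => riemannZeta ((x : ℂ) + I * (v : ℂ))) v :=
        ContinuousAt.comp (f := fun v : ℝ => (x : ℂ) + I * (v : ℂ)) hd (by fun_prop)
      exact (hc.norm.pow 2).continuousWithinAt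
    refine (h7.trans h6).trans ?_
    calc 16 * Real.exp 2 * (M0 * (4 * Real.log 4)) = D * (4 * Real.log 4) := by rw [hD]; ring
      _ ≤ D * (1 / κ * (4:ℝ) ^ (1 + κ)) := by gcongr
      _ = D * (1 / κ * (4:ℝ) ^ (1 + κ)) * 1 := by ring
      _ ≤ _ := by gcongr

end

end Pool.Agent.V7H6.GP
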